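import Pool.Agent.Q23.PP.Stm

/-!
# Project PP, jobs CONE and PERM
-/

set_option autoImplicit false

open scoped Matrix

namespace Pool.Agent.Q184.PP

open Pool.Agent.H919R4.ZS (FinRes toRed RedC augm)
open Pool.Agent.TH38.CX (Res ExR PM Triv sumMap Bdd)
open Pool.Agent.TH38.ZT (ExAt)
open Pool.Agent.Q23.PP

/-- job CONE -/
theorem cone : S_cone := by
  intro G _ X E _ hne R' R hb' hb S _ φ hX hR' i
  obtain ⟨F, hF0, hF⟩ := Pool.Agent.TH38.CX.exists_chain R' R (Delta G E).subtype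
  obtain ⟨e0⟩ := hne
  have hf : Function.Injective (Delta G E).subtype := Submodule.injective_subtype _
  have hg : Function.Surjective (sumMap (G := G) E) := by
    intro m
    refine ⟨Pool.Agent.TH38.CX.ofF (Finsupp.single e0 (Pool.Agent.TH38.CX.tv m)), ?_⟩
    change Finsupp.sum (Finsupp.single e0 (Pool.Agent.TH38.CX.tv m)) (fun _ r => r) =
      Pool.Agent.TH38.CX.tv m
    exact Finsupp.sum_single_index rfl
  have hfg : ∀ m, sumMap (G := G) E m = 0 ↔ ∃ m', (Delta G E).subtype m' = m := by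
    intro m
    constructor
    · intro hm
      exact ⟨⟨m, hm⟩, rfl⟩
    · rintro ⟨⟨m', hm'⟩, rfl⟩
      exact hm'
  obtain ⟨L', hL'⟩ := hb'
  obtain ⟨L, hL⟩ := hb
  have hC : ∀ l > L' + L + 1, IsEmpty
      ((Pool.Agent.TH38.CX.cone R' R (Delta G E).subtype (sumMap (G := G) E) hf hg hfg F hF0
        hF).ι l) := by
    intro l hl
    cases l with
    | zero => omega
    | succ l =>
      have e1 := hL' l (by omega)
      have e2 := hL (l + 1) (by omega)
      change IsEmpty (R'.ι l ⊕ R.ι (l + 1))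
      exact isEmpty_sum.2 ⟨e1, e2⟩
  have h1 : ExR (Pool.Agent.TH38.CX.cone R' R (Delta G E).subtype (sumMap (G := G) E) hf hg hfg F
      hF0 hF) φ i :=
    Pool.Agent.TH38.CX.exR_of_toFin _ _ hC φ i
      (Pool.Agent.TH38.ZT.ex_indep X (Pool.Agent.TH38.CX.toFin _ _ hC) φ i (hX i))
  exact Pool.Agent.TH38.CX.les2 R' R _ _ hf hg hfg F hF0 hF φ i h1 (hR' i)

theorem transport {G : Type} [Group G] {K K' : Subgroup G} (h : K = K') (Z : FinRes K') :
    ∃ Z' : FinRes K, ∀ i, ExAt Z' (toRed K) i → ExAt Z (toRed K') i := by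
  subst h
  exact ⟨Z, fun _ h => h⟩

theorem stab {G : Type} [Group G] {c : ℕ} (H : Fin c → Subgroup G) (a : Fin c) :
    MulAction.stabilizer G (⟨a, ((1 : G) : G ⧸ H a)⟩ : Comp H) = H a := by
  ext g
  rw [MulAction.mem_stabilizer_iff, Sigma.smul_mk, MulAction.Quotient.smul_mk]
  constructor
  · intro h
    have h1 := eq_of_heq (Sigma.mk.inj h).2
    have h2 := QuotientGroup.eq.1 h1
    simpa using h2
  · intro h
    congr 1
    refine QuotientGroup.eq.2 ?_
    simpa using h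

/-- job PERM -/
theorem perm : S_perm := by
  intro G _ c H Y
  choose Z hZ using fun a => transport (stab H a) (Y a)
  obtain ⟨R, hR, L, hL⟩ := Pool.Agent.TH38.CX.exists_perm_res
    (fun a : Fin c => (⟨a, ((1 : G) : G ⧸ H a)⟩ : Comp H)) (by
      rintro ⟨a, q⟩
      obtain ⟨g, rfl⟩ := QuotientGroup.mk_surjective q
      refine ⟨a, ⟨g, ?_⟩, ?_⟩
      · change g • (⟨a, ((1 : G) : G ⧸ H a)⟩ : Comp H) = _
        rw [Sigma.smul_mk, MulAction.Quotient.smul_mk]
        simp
      · rintro b ⟨t, ht⟩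
        exact congrArg Sigma.fst ht) Z
  refine ⟨R, ⟨L, hL⟩, fun h a i => hZ a i ?_⟩
  exact Pool.Agent.TH38.CX.ex_small (Z a) i ((hR (RedC G) (toRed G) i).1 (h i) a)

end Pool.Agent.Q184.PP
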